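import Pool.Agent.Lib.MP_8a5982_an.HO.H84.Herglotz

/-!
# Project FULL, module AH: the array form of Host's lemma (helper84)
-/

open MeasureTheory Set Filter Topology
open scoped ENNReal NNReal ComplexConjugate InnerProductSpace BoundedContinuousFunction

set_option linter.unusedSectionVars false

namespace Full.H84

open HostSn.H84

local instance : Fact ((0 : ℝ) < 1) := ⟨one_pos⟩

/-! ### Herglotz for real positive definite sequences -/

section herglotz

/-- the Fejer density -/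
noncomputable def fejR (r : ℤ → ℝ) (N : ℕ) (x : UnitAddCircle) : ℝ :=
  (∑ i ∈ Finset.range N, ∑ j ∈ Finset.range N,
    (((fourier (-(i : ℤ)) x : ℂ)).re * ((fourier (-(j : ℤ)) x : ℂ)).re +
      ((fourier (-(i : ℤ)) x : ℂ)).im * ((fourier (-(j : ℤ)) x : ℂ)).im) * r ((i : ℤ) - j)) / N

/-- positive definite even sequence -/
structure PD (r : ℤ → ℝ) : Prop where
  pos : ∀ (s : Finset ℤ) (Φ : ℤ → ℝ), 0 ≤ ∑ i ∈ s, ∑ j ∈ s, Φ i * Φ j * r (i - j)
  even : ∀ t, r (-t) = r t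

variable {r : ℤ → ℝ}

theorem PD.posN (h : PD r) (N : ℕ) (Φ : ℕ → ℝ) :
    0 ≤ ∑ i ∈ Finset.range N, ∑ j ∈ Finset.range N, Φ i * Φ j * r ((i : ℤ) - j) := by
  have h1 := h.pos ((Finset.range N).map Nat.castEmbedding) (fun k => Φ k.toNat)
  simpa [Finset.sum_map] using h1

theorem fejR_nonneg (h : PD r) (N : ℕ) (x : UnitAddCircle) : 0 ≤ fejR r N x := by
  refine div_nonneg ?_ (Nat.cast_nonneg _)
  have h1 := h.posN N (fun i => ((fourier (-(i : ℤ)) x : ℂ)).re)
  have h2 := h.posN N (fun i => ((fourier (-(i : ℤ)) x : ℂ)).im)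
  have h3 := add_nonneg h1 h2
  rw [← Finset.sum_add_distrib] at h3
  refine h3.trans_eq (Finset.sum_congr rfl fun i _ => ?_)
  rw [← Finset.sum_add_distrib]
  refine Finset.sum_congr rfl fun j _ => ?_
  ring

theorem fejR_eq (h : PD r) (N : ℕ) (x : UnitAddCircle) :
    (fejR r N x : ℂ) = (∑ i ∈ Finset.range N, ∑ j ∈ Finset.range N,
      (fourier ((j : ℤ) - i) x : ℂ) * (r ((i : ℤ) - j) : ℂ)) / N := by
  rw [fejR, Complex.ofReal_div, Complex.ofReal_natCast]
  congr 1
  have e : ∀ i j : ℕ, (fourier ((j : ℤ) - i) x : ℂ) =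
      (fourier (-(i : ℤ)) x : ℂ) * conj (fourier (-(j : ℤ)) x : ℂ) := by
    intro i j
    rw [← fourier_neg, neg_neg, ← fourier_add]
    congr 1
    ring_nf
  have e' : ∀ i j : ℕ, (fourier ((j : ℤ) - i) x : ℂ) * (r ((i : ℤ) - j) : ℂ) =
      (((((fourier (-(i : ℤ)) x : ℂ)).re * ((fourier (-(j : ℤ)) x : ℂ)).re +
      ((fourier (-(i : ℤ)) x : ℂ)).im * ((fourier (-(j : ℤ)) x : ℂ)).im) * r ((i : ℤ) - j) : ℝ) : ℂ) +
      (((((fourier (-(i : ℤ)) x : ℂ)).im * ((fourier (-(j : ℤ)) x : ℂ)).re -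
      ((fourier (-(i : ℤ)) x : ℂ)).re * ((fourier (-(j : ℤ)) x : ℂ)).im) * r ((i : ℤ) - j) : ℝ) : ℂ) *
      Complex.I := by
    intro i j
    rw [e]
    generalize (fourier (-(i : ℤ)) x : ℂ) = z
    generalize (fourier (-(j : ℤ)) x : ℂ) = w
    generalize r ((i : ℤ) - j) = t
    apply Complex.ext
    · simp only [Complex.mul_re, Complex.add_re, Complex.ofReal_re, Complex.ofReal_im,
        Complex.conj_re, Complex.conj_im, Complex.I_re, Complex.I_im, Complex.mul_im]
      ring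
    · simp only [Complex.mul_re, Complex.add_im, Complex.ofReal_re, Complex.ofReal_im,
        Complex.conj_re, Complex.conj_im, Complex.I_re, Complex.I_im, Complex.mul_im]
      ring
  simp only [e', Finset.sum_add_distrib]
  have h0 : ∑ i ∈ Finset.range N, ∑ j ∈ Finset.range N,
      (((((fourier (-(i : ℤ)) x : ℂ)).im * ((fourier (-(j : ℤ)) x : ℂ)).re -
      ((fourier (-(i : ℤ)) x : ℂ)).re * ((fourier (-(j : ℤ)) x : ℂ)).im) * r ((i : ℤ) - j) : ℝ) : ℂ) *
      Complex.I = 0 := by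
    simp only [← Finset.sum_mul, ← Complex.ofReal_sum]
    have h1 : ∑ i ∈ Finset.range N, ∑ j ∈ Finset.range N,
      ((((fourier (-(i : ℤ)) x : ℂ)).im * ((fourier (-(j : ℤ)) x : ℂ)).re -
      ((fourier (-(i : ℤ)) x : ℂ)).re * ((fourier (-(j : ℤ)) x : ℂ)).im) * r ((i : ℤ) - j)) =
      -∑ i ∈ Finset.range N, ∑ j ∈ Finset.range N,
      ((((fourier (-(i : ℤ)) x : ℂ)).im * ((fourier (-(j : ℤ)) x : ℂ)).re -
      ((fourier (-(i : ℤ)) x : ℂ)).re * ((fourier (-(j : ℤ)) x : ℂ)).im) * r ((i : ℤ) - j)) := by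
      conv_lhs => rw [Finset.sum_comm]
      rw [← Finset.sum_neg_distrib]
      refine Finset.sum_congr rfl fun i _ => ?_
      rw [← Finset.sum_neg_distrib]
      refine Finset.sum_congr rfl fun j _ => ?_
      have : r ((j : ℤ) - i) = r ((i : ℤ) - j) := by
        rw [← h.even, neg_sub]
      rw [this]
      ring
    have h2 : ∑ i ∈ Finset.range N, ∑ j ∈ Finset.range N,
      ((((fourier (-(i : ℤ)) x : ℂ)).im * ((fourier (-(j : ℤ)) x : ℂ)).re -
      ((fourier (-(i : ℤ)) x : ℂ)).re * ((fourier (-(j : ℤ)) x : ℂ)).im) * r ((i : ℤ) - j)) = 0 := by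
      linarith
    rw [h2]
    simp
  rw [h0, add_zero]
  push_cast
  rfl

theorem continuous_fejR (h : PD r) (N : ℕ) : Continuous (fejR r N) := by
  have h1 : Continuous fun x => (fejR r N x : ℂ) := by
    simp only [fejR_eq h]
    fun_prop
  have h2 : fejR r N = fun x => ((fejR r N x : ℂ)).re := by
    ext x
    simp
  rw [h2]
  exact Complex.continuous_re.comp h1

theorem integral_fejR (h : PD r) (N : ℕ) (k : ℤ) :
    ∫ x : UnitAddCircle, (fourier k x : ℂ) * (fejR r N x : ℂ) = (r k : ℂ) * (cnt N k / N) := by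
  simp only [fejR_eq h]
  have e : ∀ x : UnitAddCircle, (fourier k x : ℂ) * ((∑ i ∈ Finset.range N, ∑ j ∈ Finset.range N,
      (fourier ((j : ℤ) - i) x : ℂ) * (r ((i : ℤ) - j) : ℂ)) / N) =
      (∑ i ∈ Finset.range N, ∑ j ∈ Finset.range N,
        (fourier (k + ((j : ℤ) - i)) x : ℂ) * (r ((i : ℤ) - j) : ℂ)) / N := by
    intro x
    rw [mul_div_assoc', Finset.mul_sum]
    congr 1
    refine Finset.sum_congr rfl fun i _ => ?_
    rw [Finset.mul_sum]
    refine Finset.sum_congr rfl fun j _ => ?_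
    rw [fourier_add]
    ring
  simp only [e]
  rw [integral_div]
  have hint : ∀ i j : ℕ, Integrable (fun x : UnitAddCircle =>
      (fourier (k + ((j : ℤ) - i)) x : ℂ) * (r ((i : ℤ) - j) : ℂ)) volume := by
    intro i j
    refine Integrable.mul_const ?_ _
    exact Integrable.of_bound (fourier _).continuous.measurable.aestronglyMeasurable 1
      (Eventually.of_forall fun x => (norm_fourier_apply _ x).le)
  rw [integral_finsetSum _ (fun i _ => integrable_finsetSum _ fun j _ => hint i j)]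
  have e2 : ∀ i ∈ Finset.range N, ∫ x : UnitAddCircle, ∑ j ∈ Finset.range N,
      (fourier (k + ((j : ℤ) - i)) x : ℂ) * (r ((i : ℤ) - j) : ℂ) =
      ∑ j ∈ Finset.range N, (if (i : ℤ) - j = k then (1 : ℂ) else 0) * (r k : ℂ) := by
    intro i _
    rw [integral_finsetSum _ (fun j _ => hint i j)]
    refine Finset.sum_congr rfl fun j _ => ?_
    rw [integral_mul_const, integral_fourier_volume]
    by_cases h : (i : ℤ) - j = k
    · rw [if_pos h, if_pos (by omega), h]
    · rw [if_neg h, if_neg (by omega), zero_mul, zero_mul]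
  rw [Finset.sum_congr rfl e2, cnt]
  simp only [← Finset.sum_mul]
  ring

theorem integral_fourier_fejRMeasure (h : PD r) (N : ℕ) (k : ℤ) :
    ∫ x, (fourier k x : ℂ) ∂((volume : Measure UnitAddCircle).withDensity
      fun x => ENNReal.ofReal (fejR r N x)) = (r k : ℂ) * (cnt N k / N) := by
  rw [integral_withDensity_eq_integral_toReal_smul (continuous_fejR h N).measurable.ennreal_ofReal
    (Eventually.of_forall fun _ => ENNReal.ofReal_lt_top), ← integral_fejR h N k]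
  congr 1
  ext x
  rw [ENNReal.toReal_ofReal (fejR_nonneg h N x), Complex.real_smul, mul_comm]

theorem PD.zero_nonneg (h : PD r) : 0 ≤ r 0 := by
  have := h.pos {0} (fun _ => 1)
  simpa using this

theorem PD.eq_zero (h : PD r) (h0 : r 0 = 0) (k : ℤ) : r k = 0 := by
  by_cases hk : k = 0
  · rw [hk, h0]
  have h1 := h.pos {0, k} (fun _ => 1)
  have h2 := h.pos {0, k} (fun i => if i = 0 then 1 else -1)
  have hk' : (0 : ℤ) ≠ k := fun h => hk h.symm
  rw [Finset.sum_pair hk', Finset.sum_pair hk', Finset.sum_pair hk'] at h1 h2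
  simp only [sub_self, zero_sub, sub_zero, h0, h.even, if_true, if_neg hk] at h1 h2
  linarith

/-- **Herglotz** -/
theorem herglotz (h : PD r) : ∃ m : Measure UnitAddCircle, IsFiniteMeasure m ∧
    ∀ k, ∫ x, (fourier k x : ℂ) ∂m = (r k : ℂ) := by
  rcases h.zero_nonneg.eq_or_lt with h0 | hpos
  · refine ⟨0, inferInstance, fun k => ?_⟩
    rw [integral_zero_measure, h.eq_zero h0.symm]
    simp
  · set c : ℝ≥0∞ := (ENNReal.ofReal (r 0))⁻¹ with hc
    have hr0' : ENNReal.ofReal (r 0) ≠ 0 := by simpa using hpos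
    set M : ℕ → Measure UnitAddCircle := fun N => (volume : Measure UnitAddCircle).withDensity
      fun x => ENNReal.ofReal (fejR r (N + 1) x) with hM
    have hmass : ∀ N, M N univ = ENNReal.ofReal (r 0) := by
      intro N
      have hcont := continuous_fejR h (N + 1)
      have hint : Integrable (fejR r (N + 1)) (volume : Measure UnitAddCircle) :=
        hcont.integrable_of_hasCompactSupport (HasCompactSupport.of_compactSpace _)
      simp only [hM]
      rw [withDensity_apply _ MeasurableSet.univ, Measure.restrict_univ,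
        ← ofReal_integral_eq_lintegral_ofReal hint (Eventually.of_forall (fejR_nonneg h _))]
      congr 1
      have h2 := integral_fejR h (N + 1) 0
      simp only [fourier_zero, one_mul] at h2
      rw [cnt_zero, div_self (by exact_mod_cast Nat.succ_ne_zero N), mul_one,
        integral_complex_ofReal] at h2
      exact_mod_cast h2
    have hprob : ∀ N, IsProbabilityMeasure (c • M N) := by
      intro N
      refine ⟨?_⟩
      rw [Measure.smul_apply, hmass, hc, smul_eq_mul]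
      exact ENNReal.inv_mul_cancel hr0' ENNReal.ofReal_ne_top
    set μs : ℕ → ProbabilityMeasure UnitAddCircle := fun N => ⟨c • M N, hprob N⟩ with hμs
    obtain ⟨ν, -, hν⟩ := (isCompact_univ (X := ProbabilityMeasure UnitAddCircle)).ultrafilter_le_nhds
      ((Filter.hyperfilter ℕ).map μs) (by simp)
    have hν' : Tendsto μs (Filter.hyperfilter ℕ : Filter ℕ) (𝓝 ν) := hν
    rw [ProbabilityMeasure.tendsto_iff_forall_integral_rclike_tendsto ℂ] at hν'
    have hle : (Filter.hyperfilter ℕ : Filter ℕ) ≤ atTop := by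
      rw [← Nat.cofinite_eq_atTop]
      exact Filter.hyperfilter_le_cofinite
    have hlim : ∀ k : ℤ, ∫ x, (fourier k x : ℂ) ∂(ν : Measure UnitAddCircle) =
        c.toReal * (r k : ℂ) := by
      intro k
      let fB : UnitAddCircle →ᵇ ℂ := BoundedContinuousFunction.ofNormedAddCommGroup
        (fun x => (fourier k x : ℂ)) (fourier k).continuous 1 fun x => (norm_fourier_apply k x).le
      have h1 := hν' fB
      have h2 : Tendsto (fun N => ∫ x, (fourier k x : ℂ) ∂(μs N : Measure UnitAddCircle))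
          (Filter.hyperfilter ℕ : Filter ℕ)
          (𝓝 (∫ x, (fourier k x : ℂ) ∂(ν : Measure UnitAddCircle))) := h1
      have h3 : ∀ N, ∫ x, (fourier k x : ℂ) ∂(μs N : Measure UnitAddCircle) =
          c.toReal * ((r k : ℂ) * (cnt (N + 1) k / ((N + 1 : ℕ) : ℂ))) := by
        intro N
        have : (μs N : Measure UnitAddCircle) = c • M N := rfl
        rw [this, integral_smul_measure]
        simp only [hM]
        rw [integral_fourier_fejRMeasure h, Complex.real_smul]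
      simp only [h3] at h2
      have h4 : Tendsto (fun N : ℕ => (c.toReal : ℂ) * ((r k : ℂ) *
          (cnt (N + 1) k / ((N + 1 : ℕ) : ℂ)))) (Filter.hyperfilter ℕ : Filter ℕ)
          (𝓝 (c.toReal * ((r k : ℂ) * 1))) :=
        (((tendsto_cnt k).const_mul _).const_mul _).mono_left hle
      rw [mul_one] at h4
      exact tendsto_nhds_unique h2 h4
    refine ⟨(ENNReal.ofReal (r 0)) • (ν : Measure UnitAddCircle), ?_, fun k => ?_⟩
    · exact Measure.smul_finite _ ENNReal.ofReal_ne_top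
    · rw [integral_smul_measure, hlim k, ENNReal.toReal_ofReal hpos.le, Complex.real_smul,
        ← mul_assoc]
      have : ((r 0 : ℝ) : ℂ) * (c.toReal : ℂ) = 1 := by
        rw [hc, ENNReal.toReal_inv, ENNReal.toReal_ofReal hpos.le, Complex.ofReal_inv]
        exact mul_inv_cancel₀ (by exact_mod_cast hpos.ne')
      rw [this, one_mul]

end herglotz

/-! ### representation of a bounded functional -/

theorem bdd_repr {ι H : Type*} [NormedAddCommGroup H] [InnerProductSpace ℂ H] [CompleteSpace H]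
    (u : ι → H) (γ : ι → ℂ) (C : ℝ)
    (h : ∀ x : ι →₀ ℂ, ‖Finsupp.linearCombination ℂ γ x‖ ≤
      C * ‖Finsupp.linearCombination ℂ u x‖) :
    ∃ g : H, ∀ i, ⟪g, u i⟫_ℂ = γ i := by
  set U := Finsupp.linearCombination ℂ u with hU
  set V := Finsupp.linearCombination ℂ γ with hV
  obtain ⟨s, hs⟩ := U.rangeRestrict.exists_rightInverse_of_surjective U.range_rangeRestrict
  have hs' : ∀ y : LinearMap.range U, U (s y) = y := by
    intro y
    have := LinearMap.congr_fun hs y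
    exact congrArg Subtype.val this
  let f0 : LinearMap.range U →ₗ[ℂ] ℂ := V.comp s
  have hf0 : ∀ y, ‖f0 y‖ ≤ C * ‖y‖ := by
    intro y
    have h1 := h (s y)
    rw [hs' y] at h1
    exact h1
  let f1 : StrongDual ℂ (LinearMap.range U) := f0.mkContinuous C hf0
  obtain ⟨F, hF, _⟩ := exists_extension_norm_eq (LinearMap.range U) f1
  refine ⟨(InnerProductSpace.toDual ℂ H).symm F, fun i => ?_⟩
  rw [InnerProductSpace.toDual_symm_apply]
  have hi : U (Finsupp.single i 1) = u i := by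
    simp [hU, Finsupp.linearCombination_single]
  have hvi : V (Finsupp.single i 1) = γ i := by
    simp [hV, Finsupp.linearCombination_single]
  have h1 := hF ⟨U (Finsupp.single i 1), LinearMap.mem_range_self U _⟩
  simp only [hi] at h1
  rw [h1]
  have hmem : u i ∈ LinearMap.range U := ⟨_, hi⟩
  have h2 : f1 ⟨u i, hmem⟩ = V (s ⟨u i, hmem⟩) := rfl
  rw [h2, ← hvi, ← sub_eq_zero, ← map_sub, ← norm_le_zero_iff]
  refine (h _).trans ?_
  rw [map_sub, hs', hi, sub_self, norm_zero, mul_zero]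

section arr

variable {m1 m2 : Measure UnitAddCircle} [IsFiniteMeasure m1] [IsFiniteMeasure m2]

theorem chi_memLp (q : ℤ × ℤ) : MemLp (chi q.1 q.2) 2 (m1.prod m2) :=
  MemLp.of_bound (measurable_chi q.1 q.2).aestronglyMeasurable 1
    (Eventually.of_forall fun p => (norm_chi q.1 q.2 p).le)

theorem inner_chi {r1 r2 : ℤ → ℝ} (h1 : ∀ k, ∫ x, (fourier k x : ℂ) ∂m1 = (r1 k : ℂ))
    (h2 : ∀ k, ∫ x, (fourier k x : ℂ) ∂m2 = (r2 k : ℂ)) (i j : ℤ × ℤ) :
    ⟪(chi_memLp (m1 := m1) (m2 := m2) i).toLp _, (chi_memLp (m1 := m1) (m2 := m2) j).toLp _⟫_ℂ =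
      ((r1 (j.1 - i.1) * r2 (j.2 - i.2) : ℝ) : ℂ) := by
  rw [L2.inner_def]
  have e1 : ∫ p, ⟪((chi_memLp (m1 := m1) (m2 := m2) i).toLp _ :
        UnitAddCircle × UnitAddCircle → ℂ) p,
      ((chi_memLp (m1 := m1) (m2 := m2) j).toLp _ :
        UnitAddCircle × UnitAddCircle → ℂ) p⟫_ℂ ∂(m1.prod m2) =
      ∫ p, fourier (j.1 - i.1) p.1 * fourier (j.2 - i.2) p.2 ∂(m1.prod m2) := by
    refine integral_congr_ae ?_
    filter_upwards [(chi_memLp (m1 := m1) (m2 := m2) i).coeFn_toLp,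
      (chi_memLp (m1 := m1) (m2 := m2) j).coeFn_toLp] with p h1 h2
    rw [h1, h2]
    have : ⟪chi i.1 i.2 p, chi j.1 j.2 p⟫_ℂ = chi j.1 j.2 p * conj (chi i.1 i.2 p) := by
      simp [RCLike.inner_apply]
    rw [this, conj_chi, chi_mul]
    rfl
  rw [e1, integral_prod_mul (fun x : UnitAddCircle => (fourier (j.1 - i.1) x : ℂ))
        (fun y : UnitAddCircle => (fourier (j.2 - i.2) y : ℂ)), h1, h2]
  push_cast
  rfl

theorem arr_repr {r1 r2 : ℤ → ℝ} (h1 : ∀ k, ∫ x, (fourier k x : ℂ) ∂m1 = (r1 k : ℂ))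
    (h2 : ∀ k, ∫ x, (fourier k x : ℂ) ∂m2 = (r2 k : ℂ)) (γ : ℤ → ℤ → ℝ) (C : ℝ)
    (hb : ∀ (s : Finset (ℤ × ℤ)) (Φ : ℤ × ℤ → ℝ), (∑ p ∈ s, Φ p * γ p.1 p.2) ^ 2 ≤
      C * ∑ p ∈ s, ∑ p' ∈ s, Φ p * Φ p' * (r1 (p.1 - p'.1) * r2 (p.2 - p'.2))) :
    ∃ k : UnitAddCircle × UnitAddCircle → ℂ, Measurable k ∧ Integrable k (m1.prod m2) ∧
      ∀ m n : ℤ, ∫ p, chi m n p * k p ∂(m1.prod m2) = (γ m n : ℂ) := by
  set u : ℤ × ℤ → Lp ℂ 2 (m1.prod m2) := fun q => (chi_memLp q).toLp _ with hu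
  have hin : ∀ i j, ⟪u i, u j⟫_ℂ = ((r1 (j.1 - i.1) * r2 (j.2 - i.2) : ℝ) : ℂ) := fun i j =>
    inner_chi h1 h2 i j
  have hnorm : ∀ x : (ℤ × ℤ) →₀ ℂ, ‖Finsupp.linearCombination ℂ u x‖ ^ 2 =
      (∑ p ∈ x.support, ∑ p' ∈ x.support, (x p).re * (x p').re *
        (r1 (p.1 - p'.1) * r2 (p.2 - p'.2))) +
      ∑ p ∈ x.support, ∑ p' ∈ x.support, (x p).im * (x p').im *
        (r1 (p.1 - p'.1) * r2 (p.2 - p'.2)) := by
    intro x
    have e1 : ⟪Finsupp.linearCombination ℂ u x, Finsupp.linearCombination ℂ u x⟫_ℂ =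
        ∑ p ∈ x.support, ∑ p' ∈ x.support, x p * conj (x p') *
          ((r1 (p.1 - p'.1) * r2 (p.2 - p'.2) : ℝ) : ℂ) := by
      rw [Finsupp.linearCombination_apply, Finsupp.sum, inner_sum]
      refine Finset.sum_congr rfl fun p _ => ?_
      rw [sum_inner]
      refine Finset.sum_congr rfl fun p' _ => ?_
      rw [inner_smul_left, inner_smul_right, hin]
      ring
    have e2 := congrArg Complex.re e1
    rw [inner_self_eq_norm_sq_to_K] at e2
    have e3 : (((‖Finsupp.linearCombination ℂ u x‖ : ℝ) : ℂ) ^ 2).re =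
        ‖Finsupp.linearCombination ℂ u x‖ ^ 2 := by
      rw [← Complex.ofReal_pow, Complex.ofReal_re]
    have e4 : ‖Finsupp.linearCombination ℂ u x‖ ^ 2 =
        (∑ p ∈ x.support, ∑ p' ∈ x.support, x p * conj (x p') *
          ((r1 (p.1 - p'.1) * r2 (p.2 - p'.2) : ℝ) : ℂ)).re := by
      rw [← e2]
      exact e3.symm
    rw [e4, Complex.re_sum, ← Finset.sum_add_distrib]
    refine Finset.sum_congr rfl fun p _ => ?_
    rw [Complex.re_sum, ← Finset.sum_add_distrib]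
    refine Finset.sum_congr rfl fun p' _ => ?_
    simp only [Complex.mul_re, Complex.mul_im, Complex.conj_re, Complex.conj_im,
      Complex.ofReal_re, Complex.ofReal_im]
    ring
  have hbd : ∀ x : (ℤ × ℤ) →₀ ℂ, ‖Finsupp.linearCombination ℂ (fun p => (γ p.1 p.2 : ℂ)) x‖ ≤
      √|C| * ‖Finsupp.linearCombination ℂ u x‖ := by
    intro x
    have e1 : Finsupp.linearCombination ℂ (fun p : ℤ × ℤ => (γ p.1 p.2 : ℂ)) x =
        ((∑ p ∈ x.support, (x p).re * γ p.1 p.2 : ℝ) : ℂ) +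
          ((∑ p ∈ x.support, (x p).im * γ p.1 p.2 : ℝ) : ℂ) * Complex.I := by
      rw [Finsupp.linearCombination_apply, Finsupp.sum]
      push_cast
      rw [Finset.sum_mul, ← Finset.sum_add_distrib]
      refine Finset.sum_congr rfl fun p _ => ?_
      rw [smul_eq_mul]
      conv_lhs => rw [← Complex.re_add_im (x p)]
      ring
    have e2 : ‖Finsupp.linearCombination ℂ (fun p : ℤ × ℤ => (γ p.1 p.2 : ℂ)) x‖ ^ 2 =
        (∑ p ∈ x.support, (x p).re * γ p.1 p.2) ^ 2 +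
          (∑ p ∈ x.support, (x p).im * γ p.1 p.2) ^ 2 := by
      rw [e1, ← Complex.normSq_eq_norm_sq, Complex.normSq_add_mul_I]
    have e3 : ‖Finsupp.linearCombination ℂ (fun p : ℤ × ℤ => (γ p.1 p.2 : ℂ)) x‖ ^ 2 ≤
        (√|C| * ‖Finsupp.linearCombination ℂ u x‖) ^ 2 := by
      rw [mul_pow, Real.sq_sqrt (abs_nonneg C)]
      have e4 : C * ‖Finsupp.linearCombination ℂ u x‖ ^ 2 ≤
          |C| * ‖Finsupp.linearCombination ℂ u x‖ ^ 2 :=
        mul_le_mul_of_nonneg_right (le_abs_self C) (sq_nonneg _)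
      refine le_trans ?_ e4
      rw [e2, hnorm x, mul_add]
      exact add_le_add (hb x.support fun p => (x p).re) (hb x.support fun p => (x p).im)
    exact le_of_sq_le_sq e3 (by positivity)
  obtain ⟨g, hg⟩ := bdd_repr u (fun p : ℤ × ℤ => (γ p.1 p.2 : ℂ)) _ hbd
  have hgm : StronglyMeasurable (g : UnitAddCircle × UnitAddCircle → ℂ) := Lp.stronglyMeasurable g
  have hgL : MemLp (g : UnitAddCircle × UnitAddCircle → ℂ) 2 (m1.prod m2) := Lp.memLp g
  refine ⟨fun p => conj (g p), Complex.continuous_conj.measurable.comp hgm.measurable, ?_, ?_⟩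
  · have h1 : Integrable (g : UnitAddCircle × UnitAddCircle → ℂ) (m1.prod m2) :=
      hgL.integrable (by norm_num)
    exact h1.mono (Complex.continuous_conj.measurable.comp hgm.measurable).aestronglyMeasurable
      (Eventually.of_forall fun p => by simp)
  · intro m n
    have h1 := hg (m, n)
    rw [L2.inner_def] at h1
    have e1 : ∫ p, ⟪(g : UnitAddCircle × UnitAddCircle → ℂ) p,
        (u (m, n) : UnitAddCircle × UnitAddCircle → ℂ) p⟫_ℂ ∂(m1.prod m2) =
        ∫ p, chi m n p * conj (g p) ∂(m1.prod m2) := by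
      refine integral_congr_ae ?_
      filter_upwards [(chi_memLp (m1 := m1) (m2 := m2) (m, n)).coeFn_toLp] with p h1
      simp only [hu]
      rw [h1]
      simp [RCLike.inner_apply]
    rw [← e1, h1]

end arr

/-! ### the lemma -/

theorem shiftZ {Γ : ℤ → ℤ → ℤ → ℝ} (hΓ : ∀ b c d, Γ (b + 1) (c + 1) (d + 1) = Γ b c d)
    (n b c d : ℤ) : Γ (b + n) (c + n) (d + n) = Γ b c d := by
  induction n using Int.induction_on with
  | zero => simp
  | succ k ih =>
    rw [← ih, ← hΓ (b + k) (c + k) (d + k)]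
    simp only [add_assoc]
  | pred k ih =>
    rw [← ih, ← hΓ (b + (-(k : ℤ) - 1)) (c + (-(k : ℤ) - 1)) (d + (-(k : ℤ) - 1))]
    congr 1 <;> ring_nf

/-- **The array form of Host's lemma.** -/
theorem ah (Γ : ℤ → ℤ → ℤ → ℝ) (r q : ℤ → ℝ) (τ : Measure UnitAddCircle) [IsFiniteMeasure τ]
    (C : ℝ) (hΓ : ∀ b c d, Γ (b + 1) (c + 1) (d + 1) = Γ b c d)
    (hr : ∀ (s : Finset ℤ) (Φ : ℤ → ℝ), 0 ≤ ∑ i ∈ s, ∑ j ∈ s, Φ i * Φ j * r (i - j))
    (hrs : ∀ t, r (-t) = r t)
    (hq : ∀ t, (q t : ℂ) = ∫ x, (fourier t x : ℂ) ∂τ)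
    (h0 : ∀ x, τ {x} = 0) (hs : τ ⟂ₘ (volume : Measure UnitAddCircle))
    (h12 : ∀ (s : Finset (ℤ × ℤ)) (Φ : ℤ × ℤ → ℝ), (∑ p ∈ s, Φ p * Γ p.1 p.2 0) ^ 2 ≤
      C * ∑ p ∈ s, ∑ p' ∈ s, Φ p * Φ p' * (r (p.1 - p'.1) * q (p.2 - p'.2)))
    (h13 : ∀ (s : Finset (ℤ × ℤ)) (Φ : ℤ × ℤ → ℝ), (∑ p ∈ s, Φ p * Γ p.1 0 p.2) ^ 2 ≤
      C * ∑ p ∈ s, ∑ p' ∈ s, Φ p * Φ p' * (r (p.1 - p'.1) * q (p.2 - p'.2)))
    (h23 : ∀ (s : Finset (ℤ × ℤ)) (Φ : ℤ × ℤ → ℝ), (∑ p ∈ s, Φ p * Γ 0 p.1 p.2) ^ 2 ≤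
      C * ∑ p ∈ s, ∑ p' ∈ s, Φ p * Φ p' * (q (p.1 - p'.1) * q (p.2 - p'.2)))
    (b c d : ℤ) : Γ b c d = 0 := by
  obtain ⟨m1, hm1, hm1r⟩ := herglotz (r := r) ⟨hr, hrs⟩
  have hq' : ∀ k, ∫ x, (fourier k x : ℂ) ∂τ = (q k : ℂ) := fun k => (hq k).symm
  obtain ⟨k12, hk12m, hk12i, hk12⟩ := arr_repr hm1r hq' (fun b c => Γ b c 0) C h12
  obtain ⟨k13, hk13m, hk13i, hk13⟩ := arr_repr hm1r hq' (fun b d => Γ b 0 d) C h13
  obtain ⟨k23, hk23m, hk23i, hk23⟩ := arr_repr hq' hq' (fun c d => Γ 0 c d) C h23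
  have t13 : (((m1.prod τ).withDensity fun p => ‖k12 p‖ₑ).map phi13) ≪ m1.prod τ := by
    refine transfer phi13 hk12m hk13m hk12i hk13i fun m n => ?_
    simp only [chi_phi13]
    rw [hk12, hk13]
    have h1 := shiftZ hΓ n (m - n) (-n) 0
    rw [sub_add_cancel, neg_add_cancel, zero_add] at h1
    rw [h1]
  have t23 : (((m1.prod τ).withDensity fun p => ‖k12 p‖ₑ).map phi23) ≪ τ.prod τ := by
    refine transfer phi23 hk12m hk23m hk12i hk23i fun m n => ?_
    simp only [chi_phi23]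
    rw [hk12, hk23]
    have h1 := shiftZ hΓ n (-n) (m - n) 0
    rw [sub_add_cancel, neg_add_cancel, zero_add] at h1
    rw [h1]
  have hfin : IsFiniteMeasure ((m1.prod τ).withDensity fun p => ‖k12 p‖ₑ) :=
    isFiniteMeasure_withDensity hk12i.2.ne
  have h0' := hostlem m1 τ τ ((m1.prod τ).withDensity fun p => ‖k12 p‖ₑ)
    (withDensity_absolutelyContinuous _ _) t13 t23 ⟨h0⟩ hs
  have h1 : ∀ᵐ p ∂(m1.prod τ), k12 p = 0 := by
    rw [withDensity_eq_zero_iff hk12m.enorm.aemeasurable] at h0'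
    filter_upwards [h0'] with p hp
    simpa using hp
  have h2 := hk12 (b - d) (c - d)
  have h3 := shiftZ hΓ d (b - d) (c - d) 0
  rw [sub_add_cancel, sub_add_cancel, zero_add] at h3
  have h4 : ∫ p, chi (b - d) (c - d) p * k12 p ∂(m1.prod τ) = 0 := by
    refine integral_eq_zero_of_ae ?_
    filter_upwards [h1] with p hp
    simp [hp]
  rw [h4] at h2
  rw [h3]
  exact_mod_cast h2.symm

end Full.H84
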